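import Pool.Agent.Helper24.KK.GoalsA

/-!
Packet KK-EXT: a convex function on the cube is maximal at a vertex.
-/

set_option autoImplicit false

namespace Pool.Agent.Helper94.KK

open Finset MeasureTheory Pool.Agent.Helper24.KK

theorem cube {Φ : Type} [Fintype Φ] [DecidableEq Φ] (q : (Φ → ℝ) → ℝ)
    (hq : ∀ (F1 F2 : Φ → ℝ) (a b : ℝ), 0 ≤ a → 0 ≤ b → a + b = 1 →
      q (fun s => a * F1 s + b * F2 s) ≤ a * q F1 + b * q F2) (K : ℝ)
    (hK : ∀ F : Φ → ℝ, (∀ s, F s = 1 ∨ F s = -1) → q F ≤ K) :
    ∀ F : Φ → ℝ, (∀ s, |F s| ≤ 1) → q F ≤ K := by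
  have key : ∀ (T : Finset Φ) (F : Φ → ℝ), (∀ s ∈ T, |F s| ≤ 1) →
      (∀ s, s ∉ T → F s = 1 ∨ F s = -1) → q F ≤ K := by
    intro T
    induction T using Finset.induction_on with
    | empty =>
      intro F _ h
      exact hK F fun s => h s (notMem_empty s)
    | insert s T hs ih =>
      intro F h1 h2
      have hFs := abs_le.mp (h1 s (mem_insert_self s T))
      have hup : ∀ c : ℝ, (c = 1 ∨ c = -1) → q (Function.update F s c) ≤ K := by
        intro c hc
        apply ih
        · intro t ht
          rw [Function.update_of_ne (fun h => hs (by rw [← h]; exact ht))]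
          exact h1 t (mem_insert_of_mem ht)
        · intro t ht
          by_cases hts : t = s
          · rw [hts, Function.update_self]
            exact hc
          · rw [Function.update_of_ne hts]
            exact h2 t (fun h => (mem_insert.mp h).elim hts ht)
      have e : F = fun t => (1 + F s) / 2 * Function.update F s 1 t +
          (1 - F s) / 2 * Function.update F s (-1) t := by
        funext t
        by_cases hts : t = s
        · rw [hts, Function.update_self, Function.update_self]
          ring
        · rw [Function.update_of_ne hts, Function.update_of_ne hts]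
          ring
      have ha : 0 ≤ (1 + F s) / 2 := by linarith
      have hb : 0 ≤ (1 - F s) / 2 := by linarith
      have h3 := hq (Function.update F s 1) (Function.update F s (-1)) _ _ ha hb (by ring)
      rw [← e] at h3
      have h4 := mul_le_mul_of_nonneg_left (hup 1 (Or.inl rfl)) ha
      have h5 := mul_le_mul_of_nonneg_left (hup (-1) (Or.inr rfl)) hb
      linarith
  intro F hF
  exact key univ F (fun s _ => hF s) (fun s hs => absurd (mem_univ s) hs)

theorem sq_convex (A B a b : ℝ) (ha : 0 ≤ a) (hb : 0 ≤ b) (hab : a + b = 1) :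
    (a * A + b * B) ^ 2 ≤ a * A ^ 2 + b * B ^ 2 := by
  have h1 : b = 1 - a := by linarith
  subst h1
  nlinarith [mul_nonneg (mul_nonneg ha hb) (sq_nonneg (A - B))]

theorem ext : EXT := by
  intro Φ Mm _ _ _ _ M x u v K h F G hF hG
  apply cube (fun F => Qf M x u v F G) _ K _ F hF
  · intro F1 F2 a b ha hb hab
    unfold Qf
    rw [mul_sum, mul_sum, ← sum_add_distrib]
    apply sum_le_sum
    intro m _
    have e : ∑ n ∈ range M, x n * ((a * F1 (u n m) + b * F2 (u n m)) * G (v n m)) =
        a * (∑ n ∈ range M, x n * (F1 (u n m) * G (v n m))) +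
        b * (∑ n ∈ range M, x n * (F2 (u n m) * G (v n m))) := by
      rw [mul_sum, mul_sum, ← sum_add_distrib]
      apply sum_congr rfl
      intro n _
      ring
    rw [e]
    exact sq_convex _ _ a b ha hb hab
  · intro F' hF'
    apply cube (fun G => Qf M x u v F' G) _ K _ G hG
    · intro G1 G2 a b ha hb hab
      unfold Qf
      rw [mul_sum, mul_sum, ← sum_add_distrib]
      apply sum_le_sum
      intro m _
      have e : ∑ n ∈ range M, x n * (F' (u n m) * (a * G1 (v n m) + b * G2 (v n m))) =
          a * (∑ n ∈ range M, x n * (F' (u n m) * G1 (v n m))) +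
          b * (∑ n ∈ range M, x n * (F' (u n m) * G2 (v n m))) := by
        rw [mul_sum, mul_sum, ← sum_add_distrib]
        apply sum_congr rfl
        intro n _
        ring
      rw [e]
      exact sq_convex _ _ a b ha hb hab
    · intro G' hG'
      exact h F' G' hF' hG'

end Pool.Agent.Helper94.KK
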